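import Pool.Agent.Helper98.S3Pg.Defs
import Pool.Agent.Helper12.T5g.NumS3c
import Pool.Agent.Helper55.T5b.NumT
import Pool.Agent.Helper55.T5g.NumT2
import Pool.Agent.Helper45.T5g.RegB

/-!
# T5g, (S3'): the numbers

`num_inst`: the instance of `Helper55.T5b.num_real`.
-/

set_option autoImplicit false

namespace Pool.Agent.Helper12.T5g

open Finset Pool.Agent.Helper27.T4 Pool.Agent.Helper84.T5g Pool.Agent.Helper37.T5g
  Pool.Agent.Helper30.T5g Pool.Agent.Helper27.T5g Pool.Agent.Helper27.T5b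
open Pool.Agent.Helper5.ET hiding Key keysOf Mk
open Pool.Agent.Helper3.T5 Pool.Agent.Helper39.T5 Pool.Agent.Helper54.T5g
open Pool.Agent.Helper48.T5g (SplitP)
open Pool.Agent.Helper98.S3Pg

variable {m : Sq} {k l' l : ℕ} {o o' : JF → ℕ}

/-- polynomials against the exponential function -/
theorem const_mul_pow_le_exp {K W : ℝ} (hK : 0 ≤ K) (hW : 12 * 10 ^ 11 * K ≤ W) :
    K * W ^ 4 ≤ Real.exp (W / 100) := by
  have hW0 : 0 ≤ W := le_trans (by positivity) hW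
  have h1 := Real.pow_div_factorial_le_exp (W / 100) (by positivity) 5
  refine le_trans ?_ h1
  have h2 : ((Nat.factorial 5 : ℕ) : ℝ) = 120 := by norm_num [Nat.factorial]
  rw [h2]
  have h3 : (W / 100) ^ 5 / 120 = W * W ^ 4 / (12 * 10 ^ 11) := by ring
  rw [h3, le_div_iff₀ (by positivity)]
  calc K * W ^ 4 * (12 * 10 ^ 11) = (12 * 10 ^ 11 * K) * W ^ 4 := by ring
    _ ≤ W * W ^ 4 := mul_le_mul_of_nonneg_right hW (by positivity)

theorem num_inst (hm : m.Ok) {k : ℕ} (hk : 1 ≤ k) [hQ : BigQ m k] :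
    ∃ l0 : ℕ, ∀ l' l (o o' : JF → ℕ),
    l0 ≤ l' → SplitDig m k l' l → SplitP m k (sL m k l') l' l → ef m k l' 0 < l →
    7 * SS m (sL m k l') ≤ 20 * (l - l') → l - l' ≤ 8 * SS m (sL m k l') →
    (∀ x, l' ≤ x → x ≤ ez m (sL m k l) l →
      NL m k x = RT m k (sL m k l) * Jn m k (sL m k l) x) →
    ∀ nY : ℕ, (nY : ℝ) ≤ Real.sqrt (QT m k (sL m k l)) →
    E1 m k l' l ((MSp m k l' l o o').Ne + (MSp m k l' l o o').Ne' * QT m k (sL m k l)) *
      (nY * ((MSp m k l' l o o').C * (MSp m k l' l o o').Lam *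
        (min (1 / (QT m k (sL m k l) : ℝ)) (((MSp m k l' l o o').Ne' : ℝ) /
          (MSp m k l' l o o').Ne) + 1 / (MSp m k l' l o o').q))) ≤
        Real.exp (-((SS m (sL m k l') : ℝ) / 50)) := by
  have hm0 := hm
  obtain ⟨la, hq⟩ := exists_q hm0 k
  obtain ⟨lb, C1, hJ⟩ := exists_Jn_upper hm0 k
  set K0 : ℕ := 2312 * (27200 * BP k ^ 2) * (2 * BP k) ^ 7 with hK0
  set b : ℝ := Real.log ((BP k : ℝ) ^ 3) with hb
  obtain ⟨lc, hS⟩ := exists_SS_large hm0 k (12 * 10 ^ 11 * K0 + BP k + 1000 * C1 + 10000 +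
    ⌈100 * (b + 2)⌉₊)
  refine ⟨max la (max lb lc), fun l' l o o' hl0 hd hP hfr hD1 hD2 hC nY hnY => ?_⟩
  simp only [max_le_iff] at hl0
  obtain ⟨l1, l2, l3⟩ := hl0
  have hδ := hS l' l3
  obtain ⟨s, hs'⟩ : ∃ s, sL m k l' = s := ⟨_, rfl⟩
  rw [hs'] at hP hD1 hD2 hδ
  have hs1 : sL m k l = s + 1 := hP.s1
  have hks := hP.ks
  have hll : l' ≤ l := hd.ll.le
  have hq' := hq l' l o o' l1 hd (by
    rw [hs1]
    have h1 := SS_succ_ge hm0 s
    have h2 : SS m s ≤ 2 ^ 250 * SS m s := Nat.le_mul_of_pos_left _ (by positivity)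
    have h3 : SS m (s + 1) ≤ 2 ^ 20 * SS m (s + 1) := Nat.le_mul_of_pos_left _ (by positivity)
    have h4 : 8 * SS m (s + 1) ≤ 2 ^ 20 * SS m (s + 1) := Nat.mul_le_mul_right _ (by norm_num)
    omega) hC
  have hlam := Pool.Agent.Helper55.T5g.Lam_Ne_le (o := o) (o' := o') hd
  rw [hs1] at hC hnY
  -- sizes
  set δ := SS m s with hδd
  obtain ⟨δ0, hδ0⟩ : ∃ δ0, δ0 = SS m (s - 1) := ⟨_, rfl⟩
  have hδ01 : 2 ^ 250 * δ0 ≤ δ := by
    have h1 := SS_succ_ge hm0 (s - 1)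
    rw [Nat.sub_add_cancel (by omega)] at h1
    rw [hδ0]
    exact h1
  have hPZ := PZ_mul hm0 s
  have hSS := SS_succ_ge hm0 s
  have hSg1 := SS_add_Sg m (s + 1)
  rw [Nat.add_sub_cancel] at hSg1
  have hSg0 := SS_add_Sg m s
  rw [← hδ0] at hSg0
  have hSS' : 2 ^ 20 * δ ≤ SS m (s + 1) :=
    le_trans (Nat.mul_le_mul_right _ (Nat.pow_le_pow_right (by norm_num) (by norm_num))) hSS
  -- the fronts
  have e1 : ef m k l' 0 = ez m s l' := by
    have := hP.ef_lower 0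
    simpa using this
  have e2 : ef m k l 1 = ez m s l := by
    have := hP.ef_upper 1
    simpa using this
  have e3 : ef m k l 0 = ez m (s + 1) l := by
    have := hP.ef_upper 0
    simpa using this
  rw [e1] at hfr hlam
  have a1 := lt_two_ez hm0 s l'
  have a1' := two_ez_le m s l'
  have a2 := lt_two_ez hm0 s l
  have a2' := two_ez_le m s l
  have a5 := ez_sub_le hm0 (s + 1) l
  have a6 := lt_ez hm0 (s + 1) l
  have hxe : ez m s l ≤ ez m (s + 1) l := ez_le hm0 (Nat.le_succ s) l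
  have b1 := lt_ez hm0 s l'
  have b2 := lt_ez hm0 s l
  -- moduli
  have hCl' := hC l' le_rfl (by omega)
  have hCe' := hC (ez m s l') b1.le (by omega)
  have hCl := hC l hll (by omega)
  have hCx := hC (ez m s l) (by omega) hxe
  have hCX := hC (ez m (s + 1) l) (by omega) le_rfl
  have hFF1 : FF m k l 1 = Jn m k (s + 1) (ez m s l) := by
    have := hP.FF_upper 1
    rw [this]
    simp
  have hJl' : Jn m k s l' = Jn m k (s + 1) l' * QT m k (s + 1) :=
    (hP.win l' le_rfl (by omega)).Jn_split hm0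
  have hNL' : NL m k l' = RT m k s * QT m k (s + 1) * Jn m k (s + 1) l' := by
    rw [hCl', RT_succ]
  have hNe : (MSp m k l' l o o').Ne = Jn m k (s + 1) (ez m (s + 1) l) := by
    rw [MSp_Ne, hs1, e3]
  have hNe' : (MSp m k l' l o o').Ne' = Jn m k (s + 1) (ez m s l') := by
    rw [MSp_Ne', hs1, e1]
  have hlam2 := hlam (by omega)
  rw [hNe'] at hlam2
  rw [hs1] at hq' hlam2
  -- natural inequalities
  have n1 := Jn_lower hCl' hCl hll
  have n2 := Jn_lower hCl hCx b2.le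
  have n3 := hJ (s + 1) l (ez m s l) (8 * PZ m s) (by omega) b2.le hCl hCx (by omega)
  have n4 := hJ (s + 1) (ez m s l') (ez m (s + 1) l) (Sg m (s + 1) - 3 * δ) (by omega) (by omega)
    hCe' hCX (by omega)
  have n5 := hJ (s + 1) (ez m s l') (ez m s l) (9 * δ) (by omega) (by omega) hCe' hCx (by omega)
  have n6 : Jn m k (s + 1) (ez m s l') ≤ Jn m k (s + 1) l :=
    Pool.Agent.Helper48.T5g.Jn_le m k (s + 1) hfr.le
  have n7 := RT_le hm0 k s
  have n8 := le_QT_mul hm0 k s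
  have n9 := le_QT_mul hm0 k (s + 1)
  have hBP3 : BP k ^ 3 ≤ (10 ^ 6) ^ (3 * δ) := by
    have e4 : BP k ≤ (10 ^ 6) ^ δ := (by omega : BP k ≤ δ).trans (Nat.lt_pow_self (by norm_num)).le
    calc BP k ^ 3 ≤ ((10 ^ 6) ^ δ) ^ 3 := Nat.pow_le_pow_left e4 3
      _ = (10 ^ 6) ^ (3 * δ) := by
        rw [← pow_mul]
        congr 1
        ring
  have n10 : (10 ^ 6) ^ (Sg m (s + 1) - 3 * δ) ≤ QT m k (s + 1) := by
    have h7 : (10 ^ 6) ^ (Sg m (s + 1) - 3 * δ) * (10 ^ 6) ^ (3 * δ) ≤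
        QT m k (s + 1) * (10 ^ 6) ^ (3 * δ) := by
      rw [← pow_add, Nat.sub_add_cancel (by omega)]
      exact n9.trans (Nat.mul_le_mul_left _ hBP3)
    exact Nat.le_of_mul_le_mul_right h7 (pow_pos (by norm_num) _)
  have n4' : Jn m k (s + 1) (ez m (s + 1) l) ≤ Jn m k (s + 1) (ez m s l') * QT m k (s + 1) :=
    n4.trans (Nat.mul_le_mul_left _ n10)
  have n11 : ((10 ^ 6) ^ (9 * δ)) ^ 2 ≤ QT m k (s + 1) := by
    rw [← pow_mul]
    exact (Nat.pow_le_pow_right (by norm_num) (by omega)).trans n10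
  have n12 : SS m (s + 2) ≤ δ ^ 4 := by
    have h1 := Pool.Agent.Helper45.T5g.SS_succ_le_sq hm (s + 1)
    have h2 := Pool.Agent.Helper45.T5g.SS_succ_le_sq hm s
    calc SS m (s + 2) ≤ SS m (s + 1) ^ 2 := h1
      _ ≤ (SS m s ^ 2) ^ 2 := Nat.pow_le_pow_left h2 2
      _ = _ := by rw [← pow_mul]
  have p1 := Pool.Agent.Helper48.T5g.Jn_pos m k (s + 1) (ez m (s + 1) l)
  have p2 := Pool.Agent.Helper48.T5g.Jn_pos m k (s + 1) (ez m s l')
  have p3 := Pool.Agent.Helper48.T5g.Jn_pos m k (s + 1) l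
  have p3' := Pool.Agent.Helper48.T5g.Jn_pos m k (s + 1) l'
  have p5 := Pool.Agent.Helper48.T5g.Jn_pos m k (s + 1) (ez m s l)
  have p4 := QT_pos m k (s + 1)
  have p4' := QT_pos m k s
  -- real versions
  clear_value δ
  rw [← hδd] at n7 hPZ hSS hSg0
  have n13 := lt_ez_sub hm0 s l
  rw [← hδd] at n13
  set lam : ℝ := Real.log (10 ^ 6) with hlamd
  have hlam13 : 13 ≤ lam := by
    have := Pool.Agent.Helper30.T5.log_million_gt
    linarith
  have hlam14 : lam ≤ 20 := by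
    have h1 : Real.log (10 ^ 6) ≤ Real.log (Real.exp 20) := by
      apply Real.log_le_log (by norm_num)
      have h2 : (2 : ℝ) ≤ Real.exp 1 := by
        have := Real.exp_one_gt_d9
        linarith
      have h3 : Real.exp 20 = Real.exp 1 ^ 20 := by
        rw [← Real.exp_nat_mul]
        norm_num
      rw [h3]
      calc (10 ^ 6 : ℝ) ≤ 2 ^ 20 := by norm_num
        _ ≤ Real.exp 1 ^ 20 := pow_le_pow_left₀ (by norm_num) h2 _
    rwa [Real.log_exp] at h1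
  have hpow : ∀ n : ℕ, ((10 : ℝ) ^ 6) ^ n = Real.exp (lam * n) := by
    intro n
    rw [mul_comm, Real.exp_nat_mul, hlamd, Real.exp_log (by norm_num)]
  have hBP1 : (1 : ℝ) ≤ (BP k : ℝ) ^ 3 := by
    have : (1 : ℝ) ≤ (BP k : ℝ) := by exact_mod_cast BP_pos k
    exact one_le_pow₀ this
  have hBP0 : (0 : ℝ) < (BP k : ℝ) ^ 3 := by linarith
  have hb0 : 0 ≤ b := Real.log_nonneg hBP1
  clear_value lam b K0
  have hW1 : 12 * 10 ^ 11 * (K0 : ℝ) ≤ (δ : ℝ) := by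
    exact_mod_cast (by omega : 12 * 10 ^ 11 * K0 ≤ δ)
  have hW2 : 100 * (b + 2) ≤ (δ : ℝ) := by
    have h1 := Nat.le_ceil (100 * (b + 2))
    have h2 : ((⌈100 * (b + 2)⌉₊ : ℕ) : ℝ) ≤ (δ : ℝ) := by
      exact_mod_cast (by omega : ⌈100 * (b + 2)⌉₊ ≤ δ)
    linarith
  have hW3 : 2 ^ 250 * (δ0 : ℝ) ≤ (δ : ℝ) := by exact_mod_cast hδ01
  have hW3' : 10 ^ 6 * (δ0 : ℝ) ≤ (δ : ℝ) := by
    have h1 : (10 ^ 6 : ℝ) * δ0 ≤ 2 ^ 250 * δ0 :=
      mul_le_mul_of_nonneg_right (by norm_num) (Nat.cast_nonneg _)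
    linarith
  have hW4 : ((PZ m s : ℕ) : ℝ) * 512 = δ := by
    rw [mul_comm]
    exact_mod_cast hPZ
  have hcast1 : ((l - l' : ℕ) : ℝ) = (l : ℝ) - l' := Nat.cast_sub hll
  have hcast2 : ((ez m s l - l : ℕ) : ℝ) = (ez m s l : ℝ) - l := Nat.cast_sub b2.le
  have hcap : cap m k l' = (10 ^ 6) ^ (2 * δ0) := by
    unfold cap
    rw [hs', hδ0]
  -- the statement
  unfold E1
  rw [hNe, hNe', hFF1, hs1, hs', hNL', hJl']
  unfold R0
  rw [hs1]
  set J : ℝ := (Jn m k (s + 1) l : ℝ) with hJd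
  set J' : ℝ := (Jn m k (s + 1) l' : ℝ) with hJ'd
  set F : ℝ := (Jn m k (s + 1) (ez m s l) : ℝ) with hFd
  set A : ℝ := (Jn m k (s + 1) (ez m (s + 1) l) : ℝ) with hAd
  set A' : ℝ := (Jn m k (s + 1) (ez m s l') : ℝ) with hA'd
  set Q : ℝ := (QT m k (s + 1) : ℝ) with hQd
  set Q' : ℝ := (QT m k s : ℝ) with hQ'd
  set R' : ℝ := (RT m k s : ℝ) with hR'd
  obtain ⟨S4, hS4d⟩ : ∃ S4 : ℝ, S4 = (SS m (s + 1 + 1) : ℝ) := ⟨_, rfl⟩
  rw [← hS4d]
  have hS40 : 0 ≤ S4 := by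
    rw [hS4d]
    exact Nat.cast_nonneg _
  have hS4 : S4 ≤ (δ : ℝ) ^ 4 := by
    rw [hS4d]
    exact_mod_cast n12
  obtain ⟨Cr, hCr⟩ : ∃ Cr : ℝ, Cr = ((MSp m k l' l o o').C : ℝ) := ⟨_, rfl⟩
  have hCr0 : 0 ≤ Cr := by
    rw [hCr]
    exact Nat.cast_nonneg _
  have hC7 : Cr ≤ (2 * BP k) ^ 7 := by
    rw [hCr]
    exact_mod_cast MSp_C_le
  rw [← hCr]
  have hJ0 : 0 ≤ J := Nat.cast_nonneg _
  have hJ'0 : 0 ≤ J' := Nat.cast_nonneg _
  have hA'0 : 0 ≤ A' := Nat.cast_nonneg _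
  have hR'0 : 0 ≤ R' := Nat.cast_nonneg _
  clear_value J J' F A A' Q Q' R'
  have hfin := Pool.Agent.Helper55.T5b.num_real (lam := lam) (D := (l : ℝ) - l') (W := (δ : ℝ))
    (l1 := (ez m s l : ℝ) - l) (β := lam * δ0 + b) (κ := 4 * (lam * δ0) + δ / 100)
    (cap := cap m k l') (R0 := 27200 * S4 * (BP k : ℝ) ^ 2)
    (C := Cr) (Lam := ((MSp m k l' l o o').Lam : ℝ)) (nY := (nY : ℝ))
    (Q := Q) (Q' := Q') (R' := R') (J := J) (J' := J') (F := F) (Ne := A) (Ne' := A')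
    (q := ((MSp m k l' l o o').q : ℝ)) hlam13 (Nat.cast_nonneg _)
    (by
      have h1 : ((11 * δ : ℕ) : ℝ) ≤ ((1024 * (ez m s l - l) : ℕ) : ℝ) := by
        exact_mod_cast n13.le
      push_cast at h1
      rw [hcast2] at h1
      linarith)
    (by
      have h1 : ((7 * δ : ℕ) : ℝ) ≤ ((20 * (l - l') : ℕ) : ℝ) := by exact_mod_cast hD1
      push_cast at h1
      rw [hcast1] at h1
      linarith)
    (by rw [hQd]; exact_mod_cast p4) (by rw [hQ'd]; exact_mod_cast p4')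
    (by rw [hJd]; exact_mod_cast p3) (by rw [hJ'd]; exact_mod_cast p3')
    (by rw [hFd]; exact_mod_cast p5) (by rw [hAd]; exact_mod_cast p1)
    (by rw [hA'd]; exact_mod_cast p2) hR'0
    (by rw [hcap]; exact pow_nonneg (by norm_num) _)
    (mul_nonneg (mul_nonneg (by norm_num) hS40) (pow_nonneg (Nat.cast_nonneg _) 2))
    hCr0 (Nat.cast_nonneg _) (Nat.cast_nonneg _)
    (by
      have h1 : J' * ((10 : ℝ) ^ 6) ^ (l - l') ≤ J := by
        rw [hJd, hJ'd]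
        exact_mod_cast n1
      rwa [hpow, hcast1] at h1)
    (by
      have h1 : J * ((10 : ℝ) ^ 6) ^ (ez m s l - l) ≤ F := by
        rw [hJd, hFd]
        exact_mod_cast n2
      rwa [hpow, hcast2] at h1)
    (by
      have h1 : F ≤ J * ((10 : ℝ) ^ 6) ^ (8 * PZ m s) := by
        rw [hJd, hFd]
        exact_mod_cast n3
      refine h1.trans (mul_le_mul_of_nonneg_left ?_ hJ0)
      apply Real.le_sqrt_of_sq_le
      rw [hpow, ← Real.exp_nat_mul]
      have h2 : Real.exp (lam * (δ - δ0) - b) ≤ Q' := by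
        rw [Real.exp_sub, hb, Real.exp_log hBP0, div_le_iff₀ hBP0]
        have h3 : ((10 : ℝ) ^ 6) ^ Sg m s ≤ Q' * (BP k : ℝ) ^ 3 := by
          rw [hQ'd]
          exact_mod_cast n8
        rw [hpow] at h3
        have h4 : (Sg m s : ℝ) = δ - δ0 := by
          have : (δ0 : ℝ) + (Sg m s : ℝ) = δ := by exact_mod_cast hSg0
          linarith
        rwa [h4] at h3
      refine le_trans (Real.exp_le_exp.2 ?_) h2
      push_cast
      have h3 : 13 * ((δ : ℝ) - δ0 - 16 * (PZ m s : ℝ)) ≤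
          lam * (δ - δ0 - 16 * (PZ m s : ℝ)) := mul_le_mul_of_nonneg_right hlam13 (by linarith)
      linarith)
    (by
      rw [hAd, hA'd, hQd]
      exact_mod_cast n4')
    (by
      have h1 : F ≤ A' * ((10 : ℝ) ^ 6) ^ (9 * δ) := by
        rw [hFd, hA'd]
        exact_mod_cast n5
      refine h1.trans (mul_le_mul_of_nonneg_left ?_ hA'0)
      apply Real.le_sqrt_of_sq_le
      rw [hQd]
      exact_mod_cast n11)
    (by
      rw [hJd, hA'd]
      exact_mod_cast n6)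
    (by
      rw [← hpow, hR'd]
      exact_mod_cast n7)
    (add_nonneg (mul_nonneg (by linarith) (Nat.cast_nonneg _)) hb0)
    (by
      have h3 : ((10 : ℝ) ^ 6) ^ Sg m s ≤ Q' * (BP k : ℝ) ^ 3 := by
        rw [hQ'd]
        exact_mod_cast n8
      have h4 : (Sg m s : ℝ) = δ - δ0 := by
        have : (δ0 : ℝ) + (Sg m s : ℝ) = δ := by exact_mod_cast hSg0
        linarith
      rw [hpow, h4] at h3
      have h5 : lam * δ - (lam * δ0 + b) = lam * (δ - δ0) - b := by ring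
      rw [h5, Real.exp_sub, hb, Real.exp_log hBP0, div_le_iff₀ hBP0]
      exact h3)
    hnY (by rw [hQd]; exact_mod_cast hq'.1)
    (by
      have h1 := Pool.Agent.Helper55.T5g.pow_1000039_le (l - l')
      rw [hcast1, ← hlamd] at h1
      have h2 : ((MSp m k l' l o o').Lam : ℝ) * A' ≤ J' * 1000039 ^ ((l - l') / 2) := by
        have h3 := hlam2
        push_cast at h3
        rw [hA'd]
        exact h3
      exact h2.trans (mul_le_mul_of_nonneg_left h1 hJ'0))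
    (by
      rw [hcap, Real.exp_add]
      have h1 : (((10 : ℝ) ^ 6) ^ (2 * δ0)) ^ 2 = Real.exp (4 * (lam * δ0)) := by
        rw [← pow_mul, hpow]
        congr 1
        push_cast
        ring
      rw [h1]
      have h2 := const_mul_pow_le_exp (K := (K0 : ℝ)) (W := (δ : ℝ)) (Nat.cast_nonneg _) hW1
      have hE := (Real.exp_pos (4 * (lam * δ0))).le
      have hB2 : (0 : ℝ) ≤ (BP k : ℝ) ^ 2 := pow_nonneg (Nat.cast_nonneg _) 2
      have hT4 : 27200 * S4 * (BP k : ℝ) ^ 2 ≤ 27200 * (δ : ℝ) ^ 4 * (BP k : ℝ) ^ 2 :=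
        mul_le_mul_of_nonneg_right (mul_le_mul_of_nonneg_left hS4 (by norm_num)) hB2
      have hT40 : 0 ≤ 27200 * (δ : ℝ) ^ 4 * (BP k : ℝ) ^ 2 :=
        mul_nonneg (mul_nonneg (by norm_num) (pow_nonneg (Nat.cast_nonneg _) 4)) hB2
      calc 2312 * Real.exp (4 * (lam * δ0)) * (27200 * S4 * (BP k : ℝ) ^ 2) * Cr
          ≤ 2312 * Real.exp (4 * (lam * δ0)) * (27200 * (δ : ℝ) ^ 4 * (BP k : ℝ) ^ 2) *
            (2 * BP k) ^ 7 :=
            mul_le_mul (mul_le_mul_of_nonneg_left hT4 (mul_nonneg (by norm_num) hE)) hC7 hCr0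
              (mul_nonneg (mul_nonneg (by norm_num) hE) hT40)
        _ = Real.exp (4 * (lam * δ0)) * ((K0 : ℝ) * (δ : ℝ) ^ 4) := by
            rw [hK0]
            push_cast
            ring
        _ ≤ _ := mul_le_mul_of_nonneg_left h2 (Real.exp_pos _).le)
    (by
      have h1 : lam * δ0 ≤ 20 * δ0 := mul_le_mul_of_nonneg_right hlam14 (Nat.cast_nonneg _)
      linarith)
  rw [← hδd]
  refine le_trans (le_of_eq ?_) hfin
  push_cast
  rw [← hAd, ← hA'd, ← hQd, ← hFd, ← hR'd, ← hJ'd, mul_comm J' Q]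

end Pool.Agent.Helper12.T5g
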