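import Pool.Agent.Helper21.T5g.SZStmts
import Pool.Agent.Helper12.T5g.ZKey

/-!
# T5g, CaseSplitInj, line K: dependence on the keys
-/

set_option autoImplicit false

namespace Pool.Agent.Helper12.T5g

open Finset Pool.Agent.Helper27.T4
open Pool.Agent.Helper37.T5g
open Pool.Agent.Helper30.T5g hiding pz_prime pz_inj NL_pos
open Pool.Agent.Helper22.HW Pool.Agent.Helper22.SL Pool.Agent.Helper57.T5
open Pool.Agent.Helper39.T5 Pool.Agent.Helper84.T5g Pool.Agent.Helper1.T5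
open Pool.Agent.Helper48.T5g (SplitP Win Cpl)
open Pool.Agent.Helper54.T5g (SplitDig lowJ)
open Pool.Agent.Helper5.ET (bb era mask)
open Pool.Agent.Helper45.T5g (OK)
open Pool.Agent.Helper44.T5g (Zw)
open Pool.Agent.Helper22.NEARg (RegE)
open Pool.Agent.Helper22.NEARsg (Bw ZwO deep)
open Pool.Agent.Helper21.T5g Pool.Agent.Helper21.T5b

variable {m : Sq} {k s l' l : ℕ}

theorem mem_keysV {q : Key} : q ∈ keysV m k l l' ↔
    (q ∈ keysOf m k l ∨ q ∈ keysOf m k l') ∧ isV l q := by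
  classical
  unfold keysV
  rw [mem_filter, mem_union]

theorem J_mem_V (hm : m.Ok) (hl : bb 0 ≤ mL m k l) {x : JF → ℕ} (hx : x ∈ XJ m k l)
    (i : JF) : Key.J l i (maskJ (preJ m k l i) x) ∈ keysV m k l l' :=
  mem_keysV.2 ⟨Or.inl (J_mem_keysJ hm hl hx _ i), trivial⟩

theorem J_mem_V' (hm : m.Ok) (hl' : bb 0 ≤ mL m k l') {x : JF → ℕ} (hx : x ∈ XJ m k l')
    (i : JF) : Key.J l' i (maskJ (preJ m k l' i) x) ∈ keysV m k l l' :=
  mem_keysV.2 ⟨Or.inr (J_mem_keysJ hm hl' hx _ i), trivial⟩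

theorem S_mem_V (hm : m.Ok) (hl : bb 0 ≤ mL m k l) (hr : 0 < rL m k l) {x : JF → ℕ}
    (hx : x ∈ XJ m k l) {y : Fin 3 → ℕ} (hy : y ∈ Ys m k l 0) (f : Fin 3) :
    Key.S l 0 f (okey m k l 0 x) (mask (univ.filter (fun g => g < f)) y) ∈ keysV m k l l' :=
  mem_keysV.2 ⟨Or.inl (Pool.Agent.Helper54.T5g.Skey_mem hm hl hr
    (Pool.Agent.Helper54.T5g.okey_lt hm hl hx 0) hy f), rfl, rfl⟩

theorem S_not_mem_V {ls u : ℕ} {f : Fin 3} {o : JF → ℕ} {y : Fin 3 → ℕ}
    (h : ls ≠ l ∨ u ≠ 0) : Key.S ls u f o y ∉ keysV m k l l' := by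
  intro hq
  have h1 : ls = l ∧ u = 0 := (mem_keysV.1 hq).2
  rcases h with h | h
  · exact h h1.1
  · exact h h1.2

theorem disj_V {t : ℕ} (ht : 2 ≤ t) : Disjoint (keysV m k l l') (deep m k l l' t) := by
  classical
  rw [Finset.disjoint_left]
  intro q hq hd
  have hv := (mem_keysV.1 hq).2
  unfold Pool.Agent.Helper22.NEARsg.deep Pool.Agent.Helper22.NEARg.keysD at hd
  rw [mem_union, mem_filter, mem_filter] at hd
  cases q with
  | J a b c =>
    rcases hd with ⟨-, h⟩ | ⟨-, h⟩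
    · exact h
    · exact h
  | S a u f o y =>
    have h1 : a = l ∧ u = 0 := hv
    rcases hd with ⟨-, h⟩ | ⟨-, h⟩
    · have h2 : t ≤ u := h
      omega
    · have h2 : t - 1 ≤ u := h
      omega
  | V a b c => exact hv

/-- **line K** -/
theorem keyI {m : Sq} {k : ℕ} (hm : m.Ok) (hk : 3 ≤ k)
    [hQ : Pool.Agent.Helper30.T5g.BigQ m k] : KeyI m k := by
  classical
  have hm0 := hm
  obtain ⟨l0, h0⟩ := Pool.Agent.Helper44.T5g.exists_conds hm0 k
  refine ⟨l0, fun s l' l hl' h => ?_⟩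
  have hlt := h.lt
  obtain ⟨a1, -, -, -⟩ := h0 l' hl'
  obtain ⟨b1, -, -, -⟩ := h0 l (hl'.trans hlt.le)
  have hr1 := h.P.rL1
  have hr' := h.P.rL'
  have hz1 := one_le_hz m s l' l
  have hz2 := hz_le_two m s l' l
  refine ⟨?_, ⟨?_, ?_, ?_⟩, ?_, ?_⟩
  · intro w w' hw z hz
    unfold LaZ at hz
    rw [mem_product, mem_product] at hz
    obtain ⟨⟨hx, hx'⟩, hy⟩ := hz
    unfold VZ
    rw [c0_congr_keys (fun i => hw _ (J_mem_V hm0 b1 hx i)),
      c0_congr_keys (fun i => hw _ (J_mem_V' hm0 a1 hx' i)),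
      Pool.Agent.Helper22.NEARg.cs_congr0 (w := w) (w' := w')
        (fun f => hw _ (S_mem_V hm0 b1 (by omega) hx hy f))]
  · exact fun x hx i => J_mem_V hm0 b1 hx i
  · exact fun x hx i => J_mem_V' hm0 a1 hx i
  · exact fun x hx y hy f => S_mem_V hm0 b1 (by omega) hx hy f
  · exact disj_V (by
      show 2 ≤ 1 + hz m s l' l
      omega)
  · intro K hK hK' o ho r hr i y hy
    have hS : SplitP m k (sL m k l') l' l := by
      rw [h.sl']
      exact h.P
    have key := Pool.Agent.Helper39.T5g.PF_keys (t := 1) (h := hz m s l' l)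
      (F0 := 4 * FF m k l 1) (o := o) hm0 b1 a1 hS le_rfl (by omega) (by omega) ho hK hK' r hr i
      y hy
    obtain ⟨key1, key2⟩ := key
    rw [mem_sdiff] at key1 key2
    rw [mem_sdiff, mem_sdiff, mem_union, mem_union, not_or, not_or]
    refine ⟨⟨key1.1, ?_, key1.2⟩, key2.1, ?_, key2.2⟩
    · exact S_not_mem_V (u := 1 + r) (Or.inr (by omega))
    · exact S_not_mem_V (u := 1 - 1 + r) (Or.inl hlt.ne)

end Pool.Agent.Helper12.T5g
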